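import Mathlib

/-!
# Almost orthogonal families of shifts: tuples and subsets (helper34)

A mean value, Bessel's inequality, the number of exceptional tuples and the greedy choice of a
subset without exceptional tuples.
-/

set_option autoImplicit false

namespace Pool.Agent.J4.H34.SS

open Finset

/-- the mean of `f` over `1 ≤ n ≤ M` -/
noncomputable def av (M : ℕ) (f : ℕ → ℝ) : ℝ := (∑ n ∈ Icc 1 M, f n) / M

lemma av_add (M : ℕ) (f g : ℕ → ℝ) : av M (fun n => f n + g n) = av M f + av M g := by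
  unfold av
  rw [sum_add_distrib, add_div]

lemma av_sub (M : ℕ) (f g : ℕ → ℝ) : av M (fun n => f n - g n) = av M f - av M g := by
  unfold av
  rw [sum_sub_distrib, sub_div]

lemma av_mul (M : ℕ) (c : ℝ) (f : ℕ → ℝ) : av M (fun n => c * f n) = c * av M f := by
  unfold av
  rw [← mul_sum, mul_div_assoc]

lemma av_sum {ι : Type} (M : ℕ) (s : Finset ι) (f : ι → ℕ → ℝ) :
    av M (fun n => ∑ i ∈ s, f i n) = ∑ i ∈ s, av M (f i) := by
  unfold av
  rw [sum_comm, sum_div]

lemma av_mono (M : ℕ) {f g : ℕ → ℝ} (h : ∀ n, f n ≤ g n) : av M f ≤ av M g := by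
  unfold av
  exact div_le_div_of_nonneg_right (sum_le_sum fun n _ => h n) (Nat.cast_nonneg _)

lemma av_const_le (M : ℕ) {c : ℝ} (hc : 0 ≤ c) : av M (fun _ => c) ≤ c := by
  unfold av
  rcases Nat.eq_zero_or_pos M with h | h
  · subst h
    simpa using hc
  · rw [sum_const, Nat.card_Icc, nsmul_eq_mul, Nat.add_sub_cancel, mul_div_cancel_left₀]
    have : (0 : ℝ) < M := by exact_mod_cast h
    exact this.ne'

lemma av_le (M : ℕ) {f : ℕ → ℝ} {c : ℝ} (hc : 0 ≤ c) (h : ∀ n, f n ≤ c) : av M f ≤ c :=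
  (av_mono M h).trans (av_const_le M hc)

lemma av_neg (M : ℕ) (f : ℕ → ℝ) : av M (fun n => -f n) = -av M f := by
  have := av_mul M (-1) f
  simpa using this

lemma av_abs_le (M : ℕ) {f : ℕ → ℝ} {c : ℝ} (hc : 0 ≤ c) (h : ∀ n, |f n| ≤ c) : |av M f| ≤ c := by
  rw [abs_le]
  constructor
  · have h1 := av_le M (f := fun n => -f n) hc fun n => (neg_le_abs _).trans (h n)
    rw [av_neg] at h1
    linarith
  · exact av_le M hc fun n => (le_abs_self _).trans (h n)

lemma av_nonneg (M : ℕ) {f : ℕ → ℝ} (h : ∀ n, 0 ≤ f n) : 0 ≤ av M f := by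
  unfold av
  exact div_nonneg (sum_nonneg fun n _ => h n) (Nat.cast_nonneg _)

/-- Cauchy-Schwarz -/
lemma av_sq (M : ℕ) (u w : ℕ → ℝ) :
    av M (fun n => u n * w n) ^ 2 ≤ av M (fun n => u n ^ 2) * av M (fun n => w n ^ 2) := by
  unfold av
  rw [div_pow, div_mul_div_comm, ← sq]
  exact div_le_div_of_nonneg_right (sum_mul_sq_le_sq_mul_sq _ _ _) (by positivity)

/-- Bessel's inequality for almost orthogonal functions -/
lemma bessel {ι : Type} [DecidableEq ι] (M : ℕ) (S : Finset ι) (v : ι → ℕ → ℝ)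
    (hv : ∀ h n, |v h n| ≤ 1) {η : ℝ} (hη : 0 ≤ η) (hηS : η * S.card ≤ 1)
    (hij : ∀ i ∈ S, ∀ j ∈ S, i ≠ j → |av M (fun n => v i n * v j n)| ≤ η)
    (F : ℕ → ℝ) (hF : ∀ n, |F n| ≤ 1) :
    ∑ h ∈ S, av M (fun n => F n * v h n) ^ 2 ≤ 2 := by
  set c : ι → ℝ := fun j => av M (fun n => F n * v j n) with hc
  set Q : ℝ := ∑ j ∈ S, c j ^ 2 with hQ
  have hQ0 : 0 ≤ Q := sum_nonneg fun _ _ => sq_nonneg _
  have hF1 : av M (fun n => F n ^ 2) ≤ 1 := by
    refine av_le M zero_le_one fun n => ?_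
    rw [← sq_abs]
    exact pow_le_one₀ (abs_nonneg _) (hF n)
  have h1 : Q = av M (fun n => F n * ∑ j ∈ S, c j * v j n) := by
    have : (fun n => F n * ∑ j ∈ S, c j * v j n) =
        fun n => ∑ j ∈ S, c j * (F n * v j n) := by
      funext n
      rw [mul_sum]
      exact sum_congr rfl fun j _ => by ring
    rw [this, av_sum]
    apply sum_congr rfl
    intro j _
    rw [av_mul, sq]
  have h3 : av M (fun n => (∑ j ∈ S, c j * v j n) ^ 2) ≤ 2 * Q := by
    have e1 : (fun n => (∑ j ∈ S, c j * v j n) ^ 2)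
        = fun n => ∑ i ∈ S, ∑ j ∈ S, c i * c j * (v i n * v j n) := by
      funext n
      rw [sq, sum_mul_sum]
      apply sum_congr rfl
      intro i _
      exact sum_congr rfl fun j _ => by ring
    rw [e1, av_sum]
    have e2 : ∀ i ∈ S, av M (fun n => ∑ j ∈ S, c i * c j * (v i n * v j n))
        ≤ c i ^ 2 + ∑ j ∈ S, η * (|c i| * |c j|) := by
      intro i hi
      rw [av_sum, ← add_sum_erase S _ hi]
      apply add_le_add
      · rw [av_mul, ← sq]
        refine mul_le_of_le_one_right (sq_nonneg _) ?_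
        refine av_le M zero_le_one fun n => ?_
        refine (le_abs_self _).trans ?_
        rw [abs_mul]
        exact mul_le_one₀ (hv i n) (abs_nonneg _) (hv i n)
      · calc ∑ j ∈ S.erase i, av M (fun n => c i * c j * (v i n * v j n))
            ≤ ∑ j ∈ S.erase i, η * (|c i| * |c j|) := by
              apply sum_le_sum
              intro j hj
              rw [mem_erase] at hj
              rw [av_mul]
              refine (le_abs_self _).trans ?_
              rw [abs_mul, abs_mul, mul_comm η]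
              exact mul_le_mul_of_nonneg_left (hij i hi j hj.2 (Ne.symm hj.1)) (by positivity)
          _ ≤ ∑ j ∈ S, η * (|c i| * |c j|) := by
              apply sum_le_sum_of_subset_of_nonneg (erase_subset _ _)
              intro j _ _
              positivity
    refine (sum_le_sum e2).trans ?_
    rw [sum_add_distrib]
    have e3 : ∑ i ∈ S, ∑ j ∈ S, η * (|c i| * |c j|) = η * (∑ i ∈ S, |c i|) ^ 2 := by
      rw [sq, sum_mul_sum, mul_sum]
      exact sum_congr rfl fun i _ => by rw [mul_sum]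
    have e4 : (∑ i ∈ S, |c i|) ^ 2 ≤ S.card * Q := by
      have := sq_sum_le_card_mul_sum_sq (s := S) (f := fun i => |c i|)
      simpa only [sq_abs] using this
    rw [e3]
    have e5 : η * (∑ i ∈ S, |c i|) ^ 2 ≤ 1 * Q := by
      calc η * (∑ i ∈ S, |c i|) ^ 2 ≤ η * (S.card * Q) := mul_le_mul_of_nonneg_left e4 hη
        _ = (η * S.card) * Q := by ring
        _ ≤ 1 * Q := mul_le_mul_of_nonneg_right hηS hQ0
    linarith
  have h4 : Q ^ 2 ≤ 2 * Q := by
    have a1 := av_sq M F (fun n => ∑ j ∈ S, c j * v j n)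
    rw [← h1] at a1
    have a3 : 0 ≤ av M (fun n => (∑ j ∈ S, c j * v j n) ^ 2) := av_nonneg M fun n => sq_nonneg _
    calc Q ^ 2 ≤ av M (fun n => F n ^ 2) * av M (fun n => (∑ j ∈ S, c j * v j n) ^ 2) := a1
      _ ≤ 1 * av M (fun n => (∑ j ∈ S, c j * v j n) ^ 2) := mul_le_mul_of_nonneg_right hF1 a3
      _ ≤ 2 * Q := by linarith
  by_contra hcon
  push Not at hcon
  nlinarith

/-- few members of the family correlate with the weight -/
lemma few {ι : Type} [DecidableEq ι] (S : Finset ι) (g : ι → ℝ) (hg : ∑ h ∈ S, g h ^ 2 ≤ 2)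
    {δ : ℝ} (hδ : 0 < δ) : ((S.filter fun h => δ < |g h|).card : ℝ) ≤ 2 / δ ^ 2 := by
  rw [le_div_iff₀ (by positivity)]
  refine le_trans ?_ hg
  calc ((S.filter fun h => δ < |g h|).card : ℝ) * δ ^ 2 =
      ∑ h ∈ S.filter (fun h => δ < |g h|), δ ^ 2 := by rw [sum_const, nsmul_eq_mul]
    _ ≤ ∑ h ∈ S.filter (fun h => δ < |g h|), g h ^ 2 := by
        apply sum_le_sum
        intro h hh
        rw [← sq_abs (g h)]
        exact pow_le_pow_left₀ hδ.le (mem_filter.1 hh).2.le 2
    _ ≤ ∑ h ∈ S, g h ^ 2 :=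
        sum_le_sum_of_subset_of_nonneg (filter_subset _ _) fun _ _ _ => sq_nonneg _

section

variable {k : ℕ} {ι : Type}

/-- the weight of the step `j` -/
noncomputable def wt (F : ℕ → ℝ) (φ : Fin k → ι → ℕ → ℝ) (m : Fin k → ℝ) (I : Finset (Fin k))
    (j : Fin k) (h : Fin k → ι) (n : ℕ) : ℝ :=
  F n * (∏ i ∈ I, φ i (h i) n) * ∏ i ∈ (insert j I)ᶜ, m i

lemma wt_le {F : ℕ → ℝ} {φ : Fin k → ι → ℕ → ℝ} {m : Fin k → ℝ} (hF : ∀ n, |F n| ≤ 1)
    (hφ : ∀ i h n, |φ i h n| ≤ 1) (hm : ∀ i, |m i| ≤ 1) (I : Finset (Fin k)) (j : Fin k)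
    (h : Fin k → ι) (n : ℕ) : |wt F φ m I j h n| ≤ 1 := by
  unfold wt
  rw [abs_mul, abs_mul, abs_prod, abs_prod]
  refine mul_le_one₀ (mul_le_one₀ (hF n) (prod_nonneg fun _ _ => abs_nonneg _) ?_)
    (prod_nonneg fun _ _ => abs_nonneg _) ?_
  · exact prod_le_one (fun _ _ => abs_nonneg _) fun i _ => hφ i _ n
  · exact prod_le_one (fun _ _ => abs_nonneg _) fun i _ => hm i

lemma wt_congr (F : ℕ → ℝ) (φ : Fin k → ι → ℕ → ℝ) (m : Fin k → ℝ) (I : Finset (Fin k))
    (j : Fin k) {h h' : Fin k → ι} (hh : ∀ i ∈ I, h i = h' i) (n : ℕ) :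
    wt F φ m I j h n = wt F φ m I j h' n := by
  unfold wt
  congr 2
  exact prod_congr rfl fun i hi => by rw [hh i hi]

/-- the deviation for the coordinates in `I` -/
noncomputable def dv (M : ℕ) (F : ℕ → ℝ) (φ : Fin k → ι → ℕ → ℝ) (m : Fin k → ℝ)
    (I : Finset (Fin k)) (h : Fin k → ι) : ℝ :=
  |av M (fun n => F n * (∏ i ∈ I, φ i (h i) n) * ∏ i ∈ Iᶜ, m i) - av M F * ∏ i, m i|

lemma dv_empty (M : ℕ) (F : ℕ → ℝ) (φ : Fin k → ι → ℕ → ℝ) (m : Fin k → ℝ) (h : Fin k → ι) :
    dv M F φ m ∅ h = 0 := by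
  unfold dv
  rw [compl_empty]
  simp only [prod_empty, mul_one]
  have : (fun n => F n * ∏ i, m i) = fun n => (∏ i, m i) * F n := by
    funext n; ring
  rw [this, av_mul]
  rw [abs_eq_zero]
  ring

/-- one step -/
lemma step (M : ℕ) (F : ℕ → ℝ) (φ : Fin k → ι → ℕ → ℝ) (m : Fin k → ℝ) (I : Finset (Fin k))
    (j : Fin k) (hj : j ∉ I) (h : Fin k → ι) :
    dv M F φ m (insert j I) h ≤ |av M (fun n => wt F φ m I j h n * (φ j (h j) n - m j))| +
      dv M F φ m I h := by
  unfold dv
  have e : (fun n => wt F φ m I j h n * (φ j (h j) n - m j)) = fun n =>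
      (F n * (∏ i ∈ insert j I, φ i (h i) n) * ∏ i ∈ (insert j I)ᶜ, m i) -
      (F n * (∏ i ∈ I, φ i (h i) n) * ∏ i ∈ Iᶜ, m i) := by
    funext n
    have e1 : Iᶜ = insert j (insert j I)ᶜ := by
      ext i
      simp only [mem_compl, mem_insert, not_or]
      constructor
      · intro hi
        by_cases hij : i = j
        · exact Or.inl hij
        · exact Or.inr ⟨hij, hi⟩
      · rintro (rfl | ⟨-, hi⟩)
        · exact hj
        · exact hi
    rw [e1, prod_insert hj, prod_insert (by simp)]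
    unfold wt
    ring
  rw [e, av_sub]
  set A := av M (fun n => F n * (∏ i ∈ insert j I, φ i (h i) n) * ∏ i ∈ (insert j I)ᶜ, m i)
  set B := av M (fun n => F n * (∏ i ∈ I, φ i (h i) n) * ∏ i ∈ Iᶜ, m i)
  set D := av M F * ∏ i, m i
  have : A - D = (A - B) + (B - D) := by ring
  rw [this]
  exact abs_add_le _ _

/-- all the steps -/
lemma chain (M : ℕ) (F : ℕ → ℝ) (φ : Fin k → ι → ℕ → ℝ) (m : Fin k → ℝ) (h : Fin k → ι) :
    dv M F φ m univ h ≤ ∑ j : Fin k, |av M (fun n => wt F φ m (univ.filter (· < j)) j h n *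
      (φ j (h j) n - m j))| := by
  set t : ℕ → ℝ := fun r => if hr : r < k then
    |av M (fun n => wt F φ m (univ.filter (· < ⟨r, hr⟩)) ⟨r, hr⟩ h n *
      (φ ⟨r, hr⟩ (h ⟨r, hr⟩) n - m ⟨r, hr⟩))| else 0 with ht
  have key : ∀ r : ℕ, r ≤ k → dv M F φ m (univ.filter fun i : Fin k => (i : ℕ) < r) h ≤
      ∑ i ∈ range r, t i := by
    intro r
    induction r with
    | zero =>
      intro _
      have : (univ.filter fun i : Fin k => (i : ℕ) < 0) = ∅ := by ext; simp
      rw [this, dv_empty]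
      simp
    | succ r ih =>
      intro hr
      set j : Fin k := ⟨r, by omega⟩ with hjd
      have e1 : (univ.filter fun i : Fin k => (i : ℕ) < r) = univ.filter (· < j) := by
        ext i
        simp [Fin.lt_def, hjd]
      have e2 : (univ.filter fun i : Fin k => (i : ℕ) < r + 1) =
          insert j (univ.filter (· < j)) := by
        ext i
        simp only [mem_filter, mem_univ, true_and, mem_insert, Fin.lt_def, hjd, Fin.ext_iff]
        omega
      rw [e2, sum_range_succ]
      refine (step M F φ m _ j (by simp) h).trans ?_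
      have h1 := ih (by omega)
      rw [e1] at h1
      have h2 : t r = |av M (fun n => wt F φ m (univ.filter (· < j)) j h n *
          (φ j (h j) n - m j))| := by
        rw [ht]
        simp only
        rw [dif_pos (by omega : r < k)]
      rw [h2]
      linarith
  have h3 := key k le_rfl
  have h4 : (univ.filter fun i : Fin k => (i : ℕ) < k) = univ := by
    ext i; simp
  rw [h4, ← Fin.sum_univ_eq_sum_range] at h3
  refine h3.trans (le_of_eq (sum_congr rfl fun j _ => ?_))
  rw [ht]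
  simp only
  rw [dif_pos j.2]

/-- summation over one coordinate -/
lemma fib [DecidableEq ι] [Inhabited ι] (S : Finset ι) (j : Fin k) (g : (Fin k → ι) → ℝ) (B : ℝ)
    (hg : ∀ x, ∑ s ∈ S, g (Function.update x j s) ≤ B) :
    ∑ h ∈ Fintype.piFinset fun _ : Fin k => S, g h ≤ (S.card : ℝ) ^ (k - 1) * B := by
  classical
  set X := Fintype.piFinset fun i : Fin k => if i = j then ({default} : Finset ι) else S with hX
  have hXc : X.card = S.card ^ (k - 1) := by
    rw [hX, Fintype.card_piFinset, ← mul_prod_erase univ _ (mem_univ j)]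
    rw [if_pos rfl, card_singleton, one_mul]
    rw [prod_congr rfl (g := fun _ => S.card) fun i hi => by rw [if_neg (ne_of_mem_erase hi)]]
    rw [prod_const, card_erase_of_mem (mem_univ j), card_univ, Fintype.card_fin]
  have e : ∑ h ∈ Fintype.piFinset fun _ : Fin k => S, g h =
      ∑ p ∈ X ×ˢ S, g (Function.update p.1 j p.2) := by
    refine sum_bij' (fun h _ => (Function.update h j default, h j))
      (fun p _ => Function.update p.1 j p.2) ?_ ?_ ?_ ?_ ?_
    · intro h hh
      rw [Fintype.mem_piFinset] at hh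
      rw [mem_product]
      refine ⟨?_, hh j⟩
      rw [hX, Fintype.mem_piFinset]
      intro i
      by_cases hi : i = j
      · subst hi
        simp
      · rw [if_neg hi]
        simp only
        rw [Function.update_of_ne hi]
        exact hh i
    · intro p hp
      rw [mem_product, hX, Fintype.mem_piFinset] at hp
      rw [Fintype.mem_piFinset]
      intro i
      by_cases hi : i = j
      · subst hi
        rw [Function.update_self]
        exact hp.2
      · rw [Function.update_of_ne hi]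
        have := hp.1 i
        rwa [if_neg hi] at this
    · intro h _
      simp
    · intro p hp
      rw [mem_product, hX, Fintype.mem_piFinset] at hp
      have h1 := hp.1 j
      rw [if_pos rfl, mem_singleton] at h1
      ext1
      · simp only [Function.update_idem]
        rw [← h1, Function.update_eq_self]
      · simp
    · intro h _
      simp
  rw [e, sum_product]
  calc ∑ x ∈ X, ∑ s ∈ S, g (Function.update x j s) ≤ ∑ x ∈ X, B := sum_le_sum fun x _ => hg x
    _ = (S.card : ℝ) ^ (k - 1) * B := by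
      rw [sum_const, nsmul_eq_mul, hXc]
      push_cast
      rfl

/-- **(A)** the mean square over the tuples, one product -/
theorem meanSquare [DecidableEq ι] [Inhabited ι] (M : ℕ) (S : Finset ι) (F : ℕ → ℝ)
    (φ : Fin k → ι → ℕ → ℝ) (m : Fin k → ℝ) (hF : ∀ n, |F n| ≤ 1)
    (hφ : ∀ i h n, |φ i h n| ≤ 1) (hm : ∀ i, |m i| ≤ 1)
    (hB : ∀ i (G : ℕ → ℝ), (∀ n, |G n| ≤ 1) →
      ∑ h ∈ S, av M (fun n => G n * (φ i h n - m i)) ^ 2 ≤ 2) :
    ∑ h ∈ Fintype.piFinset fun _ : Fin k => S, dv M F φ m univ h ^ 2 ≤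
      2 * k ^ 2 * (S.card : ℝ) ^ (k - 1) := by
  have h1 : ∀ h : Fin k → ι, dv M F φ m univ h ^ 2 ≤ k * ∑ j : Fin k,
      av M (fun n => wt F φ m (univ.filter (· < j)) j h n * (φ j (h j) n - m j)) ^ 2 := by
    intro h
    refine (pow_le_pow_left₀ (abs_nonneg _) (chain M F φ m h) 2).trans ?_
    have := sq_sum_le_card_mul_sum_sq (s := (univ : Finset (Fin k))) (f := fun j =>
      |av M (fun n => wt F φ m (univ.filter (· < j)) j h n * (φ j (h j) n - m j))|)
    rw [card_univ, Fintype.card_fin] at this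
    simpa only [sq_abs] using this
  refine (sum_le_sum fun h _ => h1 h).trans ?_
  rw [← mul_sum, sum_comm]
  have h2 : ∀ j : Fin k, ∑ h ∈ Fintype.piFinset fun _ : Fin k => S,
      av M (fun n => wt F φ m (univ.filter (· < j)) j h n * (φ j (h j) n - m j)) ^ 2 ≤
      (S.card : ℝ) ^ (k - 1) * 2 := by
    intro j
    refine fib S j (fun h => av M (fun n => wt F φ m (univ.filter (· < j)) j h n *
      (φ j (h j) n - m j)) ^ 2) 2 fun x => ?_
    refine le_trans (le_of_eq ?_) (hB j (wt F φ m (univ.filter (· < j)) j x)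
      fun n => wt_le hF hφ hm _ _ _ _)
    refine sum_congr rfl fun s _ => ?_
    have : ∀ n, wt F φ m (univ.filter (· < j)) j (Function.update x j s) n =
        wt F φ m (univ.filter (· < j)) j x n := fun n =>
      wt_congr F φ m (univ.filter (· < j)) j (h := Function.update x j s) (h' := x)
        (fun i hi => Function.update_of_ne (ne_of_lt (mem_filter.1 hi).2) _ _) n
    simp only [this, Function.update_self]
  calc (k : ℝ) * ∑ j : Fin k, ∑ h ∈ Fintype.piFinset fun _ : Fin k => S,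
      av M (fun n => wt F φ m (univ.filter (· < j)) j h n * (φ j (h j) n - m j)) ^ 2
      ≤ k * ∑ j : Fin k, (S.card : ℝ) ^ (k - 1) * 2 :=
        mul_le_mul_of_nonneg_left (sum_le_sum fun j _ => h2 j) (Nat.cast_nonneg _)
    _ = 2 * k ^ 2 * (S.card : ℝ) ^ (k - 1) := by
        rw [sum_const, card_univ, Fintype.card_fin, nsmul_eq_mul]
        ring

end

end Pool.Agent.J4.H34.SS
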