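import Pool.Agent.J4.H34.SS.Core

/-!
# Countably many sets of logarithmic density zero (helper34)
-/

set_option autoImplicit false

namespace Pool.Agent.J4.H34.SS

open Finset

/-- the sum of `1 / N` over the `N ≤ X` in `E` -/
noncomputable def ls (E : Set ℕ) (X : ℕ) : ℝ := ∑ N ∈ Icc 1 X, E.indicator (fun N => 1 / (N : ℝ)) N

lemma ls_eq (E : Set ℕ) (X : ℕ) [DecidablePred fun N => N ∈ E] :
    ∑ N ∈ (Icc 1 X).filter (fun N => N ∈ E), 1 / (N : ℝ) = ls E X := by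
  unfold ls
  rw [sum_filter]
  refine sum_congr rfl fun N _ => ?_
  by_cases h : N ∈ E
  · rw [if_pos h, Set.indicator_of_mem h]
  · rw [if_neg h, Set.indicator_of_notMem h]

lemma ls_mono {E E' : Set ℕ} {X : ℕ} (h : ∀ N ≤ X, N ∈ E → N ∈ E') : ls E X ≤ ls E' X := by
  unfold ls
  refine sum_le_sum fun N hN => ?_
  by_cases h1 : N ∈ E
  · rw [Set.indicator_of_mem h1, Set.indicator_of_mem (h N (mem_Icc.1 hN).2 h1)]
  · rw [Set.indicator_of_notMem h1]
    exact Set.indicator_nonneg (fun N _ => by positivity) N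

lemma ls_union (E E' : Set ℕ) (X : ℕ) : ls (E ∪ E') X ≤ ls E X + ls E' X := by
  unfold ls
  rw [← sum_add_distrib]
  refine sum_le_sum fun N hN => ?_
  have h1 : ∀ F : Set ℕ, 0 ≤ F.indicator (fun N : ℕ => 1 / (N : ℝ)) N := fun F =>
    Set.indicator_nonneg (fun N _ => by positivity) N
  by_cases h2 : N ∈ E
  · rw [Set.indicator_of_mem (Set.mem_union_left _ h2), Set.indicator_of_mem h2]
    linarith [h1 E']
  · by_cases h3 : N ∈ E'
    · rw [Set.indicator_of_mem (Set.mem_union_right _ h3), Set.indicator_of_mem h3]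
      linarith [h1 E]
    · rw [Set.indicator_of_notMem (by simp [h2, h3])]
      linarith [h1 E, h1 E']

/-- `E` has logarithmic density zero -/
def LDZ (E : Set ℕ) : Prop := ∀ η : ℝ, 0 < η → ∃ X₀ : ℕ, ∀ X : ℕ, X₀ ≤ X → ls E X ≤ η * Real.log X

lemma LDZ.mono {E E' : Set ℕ} (h : LDZ E') (hE : E ⊆ E') : LDZ E := by
  intro η hη
  obtain ⟨X₀, h1⟩ := h η hη
  exact ⟨X₀, fun X hX => le_trans (ls_mono fun N _ hN => hE hN) (h1 X hX)⟩

lemma LDZ.union {E E' : Set ℕ} (h : LDZ E) (h' : LDZ E') : LDZ (E ∪ E') := by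
  intro η hη
  obtain ⟨X₀, h1⟩ := h (η / 2) (by positivity)
  obtain ⟨X₁, h2⟩ := h' (η / 2) (by positivity)
  refine ⟨X₀ + X₁, fun X hX => ?_⟩
  have h3 := h1 X (by omega)
  have h4 := h2 X (by omega)
  have h5 := ls_union E E' X
  linarith

lemma LDZ.iUnion {E : ℕ → Set ℕ} (h : ∀ i, LDZ (E i)) : ∀ i, LDZ {N | ∃ j ≤ i, N ∈ E j} := by
  intro i
  induction i with
  | zero =>
    refine (h 0).mono ?_
    rintro N ⟨j, hj, hN⟩
    rw [Nat.le_zero.1 hj] at hN
    exact hN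
  | succ i ih =>
    refine (ih.union (h (i + 1))).mono ?_
    rintro N ⟨j, hj, hN⟩
    rcases Nat.lt_or_ge j (i + 1) with h1 | h1
    · exact Or.inl ⟨j, by omega, hN⟩
    · have : j = i + 1 := by omega
      rw [this] at hN
      exact Or.inr hN

/-- countably many sets of logarithmic density zero are contained, up to finite sets, in one set of
logarithmic density zero -/
theorem diag (E : ℕ → Set ℕ) (hE : ∀ i, LDZ (E i)) : ∃ E' : Set ℕ, LDZ E' ∧
    ∀ i, ∃ N₀ : ℕ, ∀ N : ℕ, N₀ ≤ N → N ∈ E i → N ∈ E' := by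
  have h1 := LDZ.iUnion hE
  have h2 : ∀ i : ℕ, ∃ X₀ : ℕ, ∀ X : ℕ, X₀ ≤ X → ls {N | ∃ j ≤ i, N ∈ E j} X ≤
        1 / ((i : ℝ) + 1) * Real.log X := fun i => h1 i (1 / ((i : ℝ) + 1)) (by positivity)
  choose Y hY using h2
  -- increasing thresholds
  set Z : ℕ → ℕ := fun i => i + ∑ j ∈ range (i + 1), Y j with hZ
  have hZY : ∀ i, Y i ≤ Z i := by
    intro i
    have : Y i ≤ ∑ j ∈ range (i + 1), Y j :=
      single_le_sum (f := Y) (fun _ _ => Nat.zero_le _) (mem_range.2 (Nat.lt_succ_self i))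
    simp only [hZ]
    omega
  have hZm : ∀ i j, i ≤ j → Z i ≤ Z j := by
    intro i j hij
    have : ∑ l ∈ range (i + 1), Y l ≤ ∑ l ∈ range (j + 1), Y l :=
      sum_le_sum_of_subset (range_mono (by omega))
    simp only [hZ]
    omega
  have hZi : ∀ i, i ≤ Z i := fun i => Nat.le_add_right _ _
  refine ⟨{N | ∃ i, Z i ≤ N ∧ ∃ j ≤ i, N ∈ E j}, ?_, fun i => ⟨Z i, fun N hN hi =>
    ⟨i, hN, i, le_rfl, hi⟩⟩⟩
  intro η hη
  obtain ⟨i₀, hi₀⟩ := exists_nat_one_div_lt hη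
  refine ⟨Z i₀ + 1, fun X hX => ?_⟩
  -- the last threshold below `X`
  have hex : ∃ i, i₀ ≤ i ∧ Z i ≤ X ∧ X < Z (i + 1) := by
    by_contra hcon
    push Not at hcon
    have : ∀ n, Z (i₀ + n) ≤ X := by
      intro n
      induction n with
      | zero => rw [add_zero]; omega
      | succ n ih => exact hcon (i₀ + n) (by omega) ih
    have h3 := this (X + 1)
    have h4 := hZi (i₀ + (X + 1))
    omega
  obtain ⟨i, hi1, hi2, hi3⟩ := hex
  have hlog : 0 ≤ Real.log X := Real.log_natCast_nonneg X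
  calc ls {N | ∃ i, Z i ≤ N ∧ ∃ j ≤ i, N ∈ E j} X ≤ ls {N | ∃ j ≤ i, N ∈ E j} X := by
        refine ls_mono ?_
        rintro N hN2 ⟨l, hl1, j, hj1, hj2⟩
        refine ⟨j, ?_, hj2⟩
        by_contra hji
        have : Z (i + 1) ≤ Z l := hZm _ _ (by omega)
        omega
    _ ≤ 1 / ((i : ℝ) + 1) * Real.log X := hY i X ((hZY i).trans hi2)
    _ ≤ η * Real.log X := by
        apply mul_le_mul_of_nonneg_right _ hlog
        have h5 : (i₀ : ℝ) ≤ i := by exact_mod_cast hi1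
        have h6 : 1 / ((i : ℝ) + 1) ≤ 1 / ((i₀ : ℝ) + 1) :=
          one_div_le_one_div_of_le (by positivity) (by linarith)
        linarith

end Pool.Agent.J4.H34.SS
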