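import Pool.Agent.J4.H34.SS.Core

/-!
# The greedy choice of a set of shifts without exceptional tuples (helper34)
-/

set_option autoImplicit false

namespace Pool.Agent.J4.H34.SS

open Finset

/-- **(B)** a large subset without exceptional tuples -/
theorem subset {k : ℕ} {ι : Type} [DecidableEq ι] [Inhabited ι] {Λ : Type} [Fintype Λ] (M : ℕ)
    (S : Finset ι) (F : Λ → ℕ → ℝ) (φ : Λ → Fin k → ι → ℕ → ℝ) (m : Λ → Fin k → ℝ) (hF : ∀ l n, |F l n| ≤ 1)
    (hφ : ∀ l i h n, |φ l i h n| ≤ 1) (hm : ∀ l i, |m l i| ≤ 1) (δ : ℝ) (B : ℕ)
    (hB : ∀ l i (G : ℕ → ℝ), (∀ n, |G n| ≤ 1) →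
      (S.filter fun h => δ < |av M (fun n => G n * (φ l i h n - m l i))|).card ≤ B) :
    ∃ T ⊆ S, (S \ T).card ≤
        Fintype.card Λ * (k * (2 ^ k * ((T.card + 1) ^ (k - 1) * B))) ∧
      ∀ l, ∀ h : Fin k → ι, Function.Injective h → (∀ i, h i ∈ T) →
        dv M (F l) (φ l) (m l) univ h ≤ k * δ := by
  classical
  set Good : Finset ι → Prop := fun T => ∀ l, ∀ I : Finset (Fin k), ∀ h : Fin k → ι,
    (∀ i ∈ I, h i ∈ T) → (∀ i ∈ I, ∀ j ∈ I, h i = h j → i = j) →
    dv M (F l) (φ l) (m l) I h ≤ I.card * δ with hGood
  have h0 : Good ∅ := by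
    intro l I h h1 _
    have : I = ∅ := by
      rw [eq_empty_iff_forall_notMem]
      intro i hi
      exact notMem_empty _ (h1 i hi)
    rw [this, dv_empty]
    simp
  obtain ⟨T, hT, hmax⟩ := exists_max_image (S.powerset.filter Good) card
    ⟨∅, mem_filter.2 ⟨empty_mem_powerset _, h0⟩⟩
  rw [mem_filter, mem_powerset] at hT
  obtain ⟨hTS, hTG⟩ := hT
  refine ⟨T, hTS, ?_, fun l h hi hh => ?_⟩
  swap
  · have := hTG l univ h (fun i _ => hh i) (fun i _ j _ hij => hi hij)
    rwa [card_univ, Fintype.card_fin] at this
  set X : Fin k → Finset (Fin k → ι) := fun j =>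
    Fintype.piFinset fun i : Fin k => if i = j then ({default} : Finset ι) else
      insert default T with hX
  set Bad : Λ → Fin k → Finset (Fin k) → (Fin k → ι) → Finset ι := fun l j I x =>
    S.filter fun s => δ < |av M (fun n => wt (F l) (φ l) (m l) I j x n *
      (φ l j s n - m l j))| with hBad
  have hXc : ∀ j, (X j).card ≤ (T.card + 1) ^ (k - 1) := by
    intro j
    rw [hX]
    simp only
    rw [Fintype.card_piFinset, ← mul_prod_erase univ _ (mem_univ j)]
    rw [if_pos rfl, card_singleton, one_mul]
    rw [prod_congr rfl (g := fun _ => (insert default T).card) fun i hi => by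
      rw [if_neg (ne_of_mem_erase hi)]]
    rw [prod_const, card_erase_of_mem (mem_univ j), card_univ, Fintype.card_fin]
    exact Nat.pow_le_pow_left (card_insert_le _ _) _
  have hsub : S \ T ⊆ (univ : Finset Λ).biUnion fun l => (univ : Finset (Fin k)).biUnion fun j =>
      (univ : Finset (Finset (Fin k))).biUnion fun I => (X j).biUnion fun x => Bad l j I x := by
    intro s hs
    rw [mem_sdiff] at hs
    have hng : ¬ Good (insert s T) := by
      intro hg
      have h1 := hmax (insert s T) (mem_filter.2 ⟨by
        rw [mem_powerset]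
        exact insert_subset hs.1 hTS, hg⟩)
      rw [card_insert_of_notMem hs.2] at h1
      omega
    rw [hGood] at hng
    push Not at hng
    obtain ⟨l, I, h, h1, h2, h3⟩ := hng
    obtain ⟨j, hj, hjs⟩ : ∃ j ∈ I, h j = s := by
      by_contra hcon
      push Not at hcon
      have := hTG l I h (fun i hi => (mem_insert.1 (h1 i hi)).resolve_left (hcon i hi)) h2
      linarith
    have hI : insert j (I.erase j) = I := insert_erase hj
    have hT' : ∀ i ∈ I.erase j, h i ∈ T := by
      intro i hi
      rw [mem_erase] at hi
      refine (mem_insert.1 (h1 i hi.2)).resolve_left fun he => hi.1 ?_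
      exact h2 i hi.2 j hj (he.trans hjs.symm)
    have h4 := hTG l (I.erase j) h hT' fun i hi i' hi' => h2 i (mem_of_mem_erase hi) i'
      (mem_of_mem_erase hi')
    have h5 := step M (F l) (φ l) (m l) (I.erase j) j (notMem_erase j I) h
    rw [hI] at h5
    have h6 : ((I.erase j).card : ℝ) = I.card - 1 := by
      rw [card_erase_of_mem hj, Nat.cast_sub (card_pos.2 ⟨j, hj⟩), Nat.cast_one]
    rw [h6] at h4
    set x : Fin k → ι := fun i => if i ∈ I.erase j then h i else default with hx
    have h7 : ∀ n, wt (F l) (φ l) (m l) (I.erase j) j h n =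
        wt (F l) (φ l) (m l) (I.erase j) j x n := fun n =>
      wt_congr _ _ _ _ _ (fun i hi => by rw [hx]; simp only; rw [if_pos hi]) n
    simp only [mem_biUnion, mem_univ, true_and]
    refine ⟨l, j, I.erase j, x, ?_, ?_⟩
    · rw [hX]
      simp only
      rw [Fintype.mem_piFinset]
      intro i
      by_cases hi : i = j
      · subst hi
        rw [if_pos rfl, hx]
        simp
      · rw [if_neg hi, hx]
        simp only
        by_cases hi' : i ∈ I.erase j
        · rw [if_pos hi']
          exact mem_insert_of_mem (hT' i hi')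
        · rw [if_neg hi']
          exact mem_insert_self _ _
    · rw [hBad]
      simp only
      rw [mem_filter]
      refine ⟨hs.1, ?_⟩
      simp only [h7, hjs] at h5
      linarith
  refine (card_le_card hsub).trans (card_biUnion_le.trans ?_)
  calc ∑ l : Λ, ((univ : Finset (Fin k)).biUnion fun j =>
        (univ : Finset (Finset (Fin k))).biUnion fun I => (X j).biUnion fun x => Bad l j I x).card
      ≤ ∑ l : Λ, k * (2 ^ k * ((T.card + 1) ^ (k - 1) * B)) := by
        apply sum_le_sum
        intro l _
        refine card_biUnion_le.trans ?_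
        calc ∑ j : Fin k, ((univ : Finset (Finset (Fin k))).biUnion fun I =>
              (X j).biUnion fun x => Bad l j I x).card
            ≤ ∑ j : Fin k, 2 ^ k * ((T.card + 1) ^ (k - 1) * B) := by
              apply sum_le_sum
              intro j _
              refine card_biUnion_le.trans ?_
              calc ∑ I : Finset (Fin k), ((X j).biUnion fun x => Bad l j I x).card
                  ≤ ∑ I : Finset (Fin k), (T.card + 1) ^ (k - 1) * B := by
                    apply sum_le_sum
                    intro I _
                    refine card_biUnion_le.trans ?_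
                    calc ∑ x ∈ X j, (Bad l j I x).card ≤ ∑ x ∈ X j, B := by
                          apply sum_le_sum
                          intro x _
                          exact hB l j _ fun n => wt_le (hF l) (hφ l) (hm l) _ _ _ _
                      _ = (X j).card * B := by rw [sum_const, smul_eq_mul]
                      _ ≤ _ := Nat.mul_le_mul_right _ (hXc j)
                _ = _ := by
                    rw [sum_const, card_univ, Fintype.card_finset, Fintype.card_fin, smul_eq_mul]
          _ = _ := by rw [sum_const, card_univ, Fintype.card_fin, smul_eq_mul]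
    _ = _ := by rw [sum_const, card_univ, smul_eq_mul]

end Pool.Agent.J4.H34.SS
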