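import Pool.Agent.J4.H34.SS.Pair
import Pool.Agent.Y842.QY.SigW

/-!
# The theorem for pairs of shifts with phases, from the starting theorem `pair_B` (helper34)
-/

set_option autoImplicit false

namespace Pool.Agent.J4.H34.SS

open Finset
open ArithmeticFunction (cardFactors)

lemma csg_om (χ : ℕ → Fin 1) (n : ℕ) :
    ((Pool.Agent.Y842.QY.csg χ n).map Prod.snd).sum = cardFactors n := by
  rw [ArithmeticFunction.cardFactors_eq_sum_factorization]
  unfold Pool.Agent.Y842.QY.csg
  rw [Multiset.map_map]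
  rfl

theorem phase : PhaseProp := by
  intro a c hac ε hε
  obtain ⟨X₀, h⟩ := Pool.Agent.Y842.QY.pair_B 1 a c hac ε hε
  refine ⟨X₀, fun X hX A B hA hB α y hy => ?_⟩
  have h1 := h X hX (fun _ => 0) (fun s => A ((s.map Prod.snd).sum)) (fun s => hA _) (fun _ => 1)
    (fun n _ => by simp) (fun m n _ _ _ => by simp) B hB (fun _ => α) y hy
  refine le_trans (le_of_eq ?_) h1
  refine sum_congr rfl fun N _ => ?_
  congr 2
  unfold Pool.Agent.Y842.QY.Lc
  refine sum_congr rfl fun n _ => ?_
  show A (cardFactors (n + c)) * ex (α * n) * (B (cardFactors (n + a)) - mB B N) =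
    A (((Pool.Agent.Y842.QY.csg (fun _ => (0 : Fin 1)) (n + c)).map Prod.snd).sum) * 1 *
      Pool.Agent.Helper602.MK.ee (α * n) *
      (B (cardFactors (n + a)) - Pool.Agent.Y842.QY.mB B N)
  rw [csg_om, mul_one]
  rfl

theorem pairs : PairProp := pairForms phase

end Pool.Agent.J4.H34.SS
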