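import Pool.Agent.J4.H34.SS.Greedy

/-!
# Classes of values of `Ω` at the forms of an arbitrary finite family (helper34)
-/

set_option autoImplicit false

namespace Pool.Agent.J4.H34.SS

open Finset
open ArithmeticFunction (cardFactors)

/-- the correlation of a centred function of `Ω` at two forms -/
noncomputable def PC (a : ℕ → ℝ) (p p' : ℕ × ℕ) (M : ℕ) : ℝ :=
  |av M (fun n => (a (cardFactors (p.1 * n + p.2)) - av M fun n => a (cardFactors n)) *
    (a (cardFactors (p'.1 * n + p'.2)) - av M fun n => a (cardFactors n)))|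

/-- the theorem for pairs of forms -/
def PairProp : Prop := ∀ p p' : ℕ × ℕ, 1 ≤ p.1 → 1 ≤ p'.1 → p.1 * p'.2 ≠ p'.1 * p.2 →
  ∀ ε : ℝ, 0 < ε → ∃ X₀ : ℕ, ∀ X : ℕ, X₀ ≤ X → ∀ a : ℕ → ℝ, (∀ t, |a t| ≤ 1) →
    ∑ N ∈ Icc 1 X, PC a p p' N / (N : ℝ) ≤ ε * Real.log X

/-- the proportion of the `1 ≤ n ≤ M` with the property `P` -/
noncomputable def dens (M : ℕ) (P : ℕ → Prop) : ℝ :=
  open Classical in (((Icc 1 M).filter P).card : ℝ) / M

lemma dens_eq (M : ℕ) (P : ℕ → Prop) [DecidablePred P] :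
    dens M P = av M (fun n => if P n then 1 else 0) := by
  unfold dens av
  rw [sum_boole]
  congr!

lemma sum_biUnion_le' {ι : Type} [DecidableEq ι] (A : Finset ι) (g : ι → Finset ℕ) :
    ∑ i ∈ A.biUnion g, 1 / (i : ℝ) ≤ ∑ x ∈ A, ∑ i ∈ g x, 1 / (i : ℝ) := by
  induction A using Finset.induction_on with
  | empty => simp
  | insert x A hx ih =>
    rw [biUnion_insert, sum_insert hx]
    have h1 := sum_union_inter (s₁ := g x) (s₂ := A.biUnion g) (f := fun i : ℕ => 1 / (i : ℝ))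
    have h2 : 0 ≤ ∑ i ∈ g x ∩ A.biUnion g, 1 / (i : ℝ) := sum_nonneg fun i _ => by positivity
    linarith

/-- the sum of Q1 for the forms `L i`, with classes and side information -/
noncomputable def q1sum {k r R : ℕ} (M : ℕ) (c : Fin k → ℕ → Fin r) (f : ℕ → Fin R)
    (L : Fin k → ℕ × ℕ) : ℝ :=
  ∑ s : Fin R, ∑ l : Fin k → Fin r,
    |dens M (fun n => f n = s ∧ ∀ i, c i (cardFactors ((L i).1 * n + (L i).2)) = l i) -
      dens M (fun n => f n = s) * ∏ i, dens M (fun n => c i (cardFactors n) = l i)|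

/-- the properties of a good scale -/
def GoodScale {k r : ℕ} (R : ℕ) (S : Finset (ℕ × ℕ)) (c : Fin k → ℕ → Fin r) (M : ℕ) : Prop :=
  ∀ f : ℕ → Fin R,
    ∑ h ∈ Fintype.piFinset (fun _ : Fin k => S), q1sum M c f h ^ 2 ≤
      2 * (k * (R * r ^ k)) ^ 2 * (S.card : ℝ) ^ (k - 1) ∧
    ∀ ε : ℝ, 0 < ε → ∃ T ⊆ S, ((S \ T).card : ℝ) ≤
      2 ^ (k + 1) * (k * (R * r ^ k) + 1) ^ 3 / ε ^ 2 * ((T.card : ℝ) + 1) ^ (k - 1) ∧
      ∀ h : Fin k → ℕ × ℕ, Function.Injective h → (∀ i, h i ∈ T) → q1sum M c f h ≤ ε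

open Classical in
/-- at one scale -/
theorem oneScale (k r R : ℕ) (S : Finset (ℕ × ℕ)) (M : ℕ) (c : Fin k → ℕ → Fin r)
    (hc : ∀ h ∈ S, ∀ h' ∈ S, h ≠ h' → ∀ (i : Fin k) (t : Fin r),
      PC (fun x => if c i x = t then 1 else 0) h h' M ≤ 1 / (S.card + 1)) :
    GoodScale R S c M := by
  intro f
  set Λ := Fin R × (Fin k → Fin r) with hΛ
  have hcard : (Fintype.card Λ : ℝ) = R * r ^ k := by
    have h1 : Fintype.card (Fin R × (Fin k → Fin r)) = R * r ^ k := by simp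
    exact_mod_cast h1
  set a : Fin k → Fin r → ℕ → ℝ := fun i t x => if c i x = t then 1 else 0 with ha
  have ha0 : ∀ i t x, 0 ≤ a i t x := by
    intro i t x
    simp only [ha]
    split_ifs <;> simp
  have ha1' : ∀ i t x, a i t x ≤ 1 := by
    intro i t x
    simp only [ha]
    split_ifs <;> simp
  have ha1 : ∀ i t x, |a i t x| ≤ 1 := fun i t x => by
    rw [abs_of_nonneg (ha0 i t x)]
    exact ha1' i t x
  set F : Λ → ℕ → ℝ := fun l n => if f n = l.1 then 1 else 0 with hF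
  have hF1 : ∀ l n, |F l n| ≤ 1 := by
    intro l n
    simp only [hF]
    split_ifs <;> simp
  set φ : Λ → Fin k → ℕ × ℕ → ℕ → ℝ := fun l i h n =>
    a i (l.2 i) (cardFactors (h.1 * n + h.2)) with hφ
  have hφ1 : ∀ l i h n, |φ l i h n| ≤ 1 := fun l i h n => ha1 _ _ _
  set m : Λ → Fin k → ℝ := fun l i => av M fun n => a i (l.2 i) (cardFactors n) with hm
  have hm1 : ∀ l i, |m l i| ≤ 1 := fun l i => av_abs_le M zero_le_one fun n => ha1 _ _ _
  have hm0 : ∀ l i, 0 ≤ m l i := fun l i => av_nonneg M fun n => ha0 _ _ _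
  have hm1' : ∀ l i, m l i ≤ 1 := fun l i => (le_abs_self _).trans (hm1 l i)
  have hB : ∀ l i (G : ℕ → ℝ), (∀ n, |G n| ≤ 1) →
      ∑ h ∈ S, av M (fun n => G n * (φ l i h n - m l i)) ^ 2 ≤ 2 := by
    intro l i G hG
    refine bessel M S (fun h n => φ l i h n - m l i) (fun h n => ?_)
      (η := 1 / (S.card + 1)) (by positivity) ?_ ?_ G hG
    · rw [abs_le]
      have h1 := ha0 i (l.2 i) (cardFactors (h.1 * n + h.2))
      have h2 := ha1' i (l.2 i) (cardFactors (h.1 * n + h.2))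
      have h3 := hm0 l i
      have h4 := hm1' l i
      simp only [hφ]
      constructor <;> linarith
    · rw [div_mul_eq_mul_div, one_mul, div_le_one (by positivity)]
      linarith
    · intro h hh h' hh' hne
      exact hc h hh h' hh' hne i (l.2 i)
  -- the sum in terms of the deviations
  have hq : ∀ h : Fin k → ℕ × ℕ, q1sum M c f h =
      ∑ l : Λ, dv M (F l) (φ l) (m l) univ h := by
    intro h
    unfold q1sum
    rw [← sum_product', ← univ_product_univ]
    refine sum_congr rfl fun l _ => ?_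
    unfold dv
    rw [dens_eq, dens_eq]
    have e1 : (fun n => if f n = l.1 ∧ ∀ i, c i (cardFactors ((h i).1 * n + (h i).2)) = l.2 i
        then (1 : ℝ) else 0) = fun n => F l n * (∏ i, φ l i (h i) n) * ∏ i ∈ univᶜ, m l i := by
      funext n
      rw [compl_univ, prod_empty, mul_one]
      simp only [hF, hφ, ha]
      rw [prod_ite_zero]
      simp only [prod_const_one, mem_univ, forall_true_left]
      by_cases h1 : f n = l.1
      · by_cases h2 : ∀ i, c i (cardFactors ((h i).1 * n + (h i).2)) = l.2 i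
        · rw [if_pos ⟨h1, h2⟩, if_pos h1, if_pos h2, mul_one]
        · rw [if_neg fun h3 => h2 h3.2, if_neg h2, mul_zero]
      · rw [if_neg fun h3 => h1 h3.1, if_neg h1, zero_mul]
    rw [e1]
    have e2 : ∀ i, dens M (fun n => c i (cardFactors n) = l.2 i) = m l i := by
      intro i
      rw [dens_eq]
    simp only [e2]
    rfl
  refine ⟨?_, fun ε hε => ?_⟩
  · have h1 : ∀ h : Fin k → ℕ × ℕ, q1sum M c f h ^ 2 ≤
        (R * r ^ k : ℝ) * ∑ l : Λ, dv M (F l) (φ l) (m l) univ h ^ 2 := by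
      intro h
      rw [hq, ← hcard]
      have := sq_sum_le_card_mul_sum_sq (s := (univ : Finset Λ)) (f := fun l =>
        dv M (F l) (φ l) (m l) univ h)
      rwa [card_univ] at this
    refine (sum_le_sum fun h _ => h1 h).trans ?_
    rw [← mul_sum, sum_comm]
    have h2 : ∀ l : Λ, ∑ h ∈ Fintype.piFinset fun _ : Fin k => S,
        dv M (F l) (φ l) (m l) univ h ^ 2 ≤ 2 * k ^ 2 * (S.card : ℝ) ^ (k - 1) := fun l =>
      meanSquare M S (F l) (φ l) (m l) (hF1 l) (hφ1 l) (hm1 l) (hB l)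
    calc (R * r ^ k : ℝ) * ∑ l : Λ, ∑ h ∈ Fintype.piFinset fun _ : Fin k => S,
        dv M (F l) (φ l) (m l) univ h ^ 2
        ≤ (R * r ^ k : ℝ) * ∑ l : Λ, 2 * k ^ 2 * (S.card : ℝ) ^ (k - 1) :=
          mul_le_mul_of_nonneg_left (sum_le_sum fun l _ => h2 l) (by positivity)
      _ = 2 * (k * (R * r ^ k)) ^ 2 * (S.card : ℝ) ^ (k - 1) := by
          rw [sum_const, card_univ, nsmul_eq_mul, hcard]
          ring
  · set D : ℝ := k * (R * r ^ k) + 1 with hD
    have hD0 : 0 < D := by positivity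
    set δ : ℝ := ε / D with hδd
    have hδ : 0 < δ := by positivity
    have hδ2 : (R * r ^ k : ℝ) * (k * δ) ≤ ε := by
      have : D * δ = ε := by
        rw [hδd]; field_simp
      rw [hD] at this
      nlinarith
    set B : ℕ := ⌊2 / δ ^ 2⌋₊ with hBd
    have hB' : (B : ℝ) ≤ 2 / δ ^ 2 := Nat.floor_le (by positivity)
    have h8 : 2 / δ ^ 2 = 2 * D ^ 2 / ε ^ 2 := by
      rw [hδd]
      field_simp
    rw [h8] at hB'
    obtain ⟨T, hT, h1, h2⟩ := subset M S F φ m hF1 hφ1 hm1 δ B fun l i G hG => by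
      rw [hBd]
      apply Nat.le_floor
      exact few S _ (hB l i G hG) hδ
    refine ⟨T, hT, ?_, fun h hi hh => ?_⟩
    · have h3 : ((S \ T).card : ℝ) ≤
          (Fintype.card Λ : ℝ) * (k * (2 ^ k * (((T.card : ℝ) + 1) ^ (k - 1) * B))) := by
        exact_mod_cast h1
      refine h3.trans ?_
      rw [hcard]
      have hD1 : (R * r ^ k : ℝ) * k ≤ D := by rw [hD]; linarith
      calc (R * r ^ k : ℝ) * (k * (2 ^ k * (((T.card : ℝ) + 1) ^ (k - 1) * B))) =
            ((R * r ^ k : ℝ) * k) * (2 ^ k * B) * ((T.card : ℝ) + 1) ^ (k - 1) := by ring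
        _ ≤ D * (2 ^ k * (2 * D ^ 2 / ε ^ 2)) * ((T.card : ℝ) + 1) ^ (k - 1) := by gcongr
        _ = 2 ^ (k + 1) * D ^ 3 / ε ^ 2 * ((T.card : ℝ) + 1) ^ (k - 1) := by
          rw [pow_succ 2 k]
          ring
    · rw [hq]
      refine (sum_le_sum fun l _ => h2 l h hi hh).trans ?_
      rw [sum_const, card_univ, nsmul_eq_mul, hcard]
      exact hδ2

open Classical in
/-- the main theorem -/
theorem main (PP : PairProp) (k r R : ℕ) (S : Finset (ℕ × ℕ)) (hS1 : ∀ p ∈ S, 1 ≤ p.1)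
    (hS2 : ∀ p ∈ S, ∀ p' ∈ S, p ≠ p' → p.1 * p'.2 ≠ p'.1 * p.2) (η' : ℝ) (hη' : 0 < η') :
    ∃ X₀ : ℕ, ∀ X : ℕ, X₀ ≤ X → ∀ c : Fin k → ℕ → Fin r,
        ∑ N ∈ (Icc 1 X).filter (fun N => ¬ GoodScale R S c N), 1 / (N : ℝ) ≤
          η' * Real.log X := by
  set η : ℝ := 1 / (S.card + 1) with hηd
  have hη : 0 < η := by positivity
  set D : ℝ := (S ×ˢ S).card * (k * r) + 1 with hD
  have hD0 : 0 < D := by positivity
  have hY : ∀ p : (ℕ × ℕ) × (ℕ × ℕ), ∃ X₀ : ℕ, p.1 ∈ S → p.2 ∈ S → p.1 ≠ p.2 → ∀ X : ℕ, X₀ ≤ X →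
      ∀ a : ℕ → ℝ, (∀ t, |a t| ≤ 1) →
        ∑ N ∈ Icc 1 X, PC a p.1 p.2 N / (N : ℝ) ≤ (η * η' / D) * Real.log X := by
    intro p
    by_cases hp : p.1 ∈ S ∧ p.2 ∈ S ∧ p.1 ≠ p.2
    · obtain ⟨X₀, h1⟩ := PP p.1 p.2 (hS1 _ hp.1) (hS1 _ hp.2.1) (hS2 _ hp.1 _ hp.2.1 hp.2.2)
        (η * η' / D) (by positivity)
      exact ⟨X₀, fun _ _ _ => h1⟩
    · exact ⟨0, fun h1 h2 h3 => absurd ⟨h1, h2, h3⟩ hp⟩
  choose Y hY using hY
  refine ⟨1 + ∑ p ∈ S ×ˢ S, Y p, fun X hX c => ?_⟩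
  have hlog : 0 ≤ Real.log X := Real.log_natCast_nonneg X
  have hsub : (Icc 1 X).filter (fun N => ¬ GoodScale R S c N) ⊆
      (S ×ˢ S).biUnion fun p => (univ : Finset (Fin k)).biUnion fun j =>
        (univ : Finset (Fin r)).biUnion fun t => (Icc 1 X).filter fun N => p.1 ≠ p.2 ∧
          η < PC (fun x => if c j x = t then 1 else 0) p.1 p.2 N := by
    intro N hN
    rw [mem_filter] at hN
    by_contra hcon
    apply hN.2
    refine oneScale k r R S N c ?_
    intro h hh h' hh' hne j t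
    by_contra hlt2
    push Not at hlt2
    apply hcon
    rw [mem_biUnion]
    refine ⟨(h, h'), mem_product.2 ⟨hh, hh'⟩, ?_⟩
    rw [mem_biUnion]
    refine ⟨j, mem_univ _, ?_⟩
    rw [mem_biUnion]
    refine ⟨t, mem_univ _, ?_⟩
    rw [mem_filter]
    exact ⟨hN.1, hne, hlt2⟩
  refine (sum_le_sum_of_subset_of_nonneg hsub fun i _ _ => by positivity).trans ?_
  have key : ∀ p ∈ S ×ˢ S, ∀ (j : Fin k) (t : Fin r),
      ∑ N ∈ (Icc 1 X).filter (fun N => p.1 ≠ p.2 ∧
          η < PC (fun x => if c j x = t then 1 else 0) p.1 p.2 N), 1 / (N : ℝ) ≤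
        η' / D * Real.log X := by
    intro p hp j t
    rw [mem_product] at hp
    by_cases hne : p.1 ≠ p.2
    · set a : ℕ → ℝ := fun x => if c j x = t then 1 else 0 with ha
      have ha1 : ∀ x, |a x| ≤ 1 := by
        intro x
        simp only [ha]
        split_ifs <;> simp
      have hYX : Y p ≤ X := by
        have := single_le_sum (f := Y) (fun _ _ => Nat.zero_le _) (mem_product.2 hp)
        have h2 : Y p ≤ ∑ p ∈ S ×ˢ S, Y p := this
        omega
      have h1 := hY p hp.1 hp.2 hne X hYX a ha1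
      have h2 : η * ∑ N ∈ (Icc 1 X).filter (fun N => p.1 ≠ p.2 ∧ η < PC a p.1 p.2 N),
          1 / (N : ℝ) ≤ ∑ N ∈ Icc 1 X, PC a p.1 p.2 N / (N : ℝ) := by
        rw [mul_sum]
        refine le_trans (sum_le_sum (g := fun N : ℕ => PC a p.1 p.2 N / (N : ℝ)) ?_)
          (sum_le_sum_of_subset_of_nonneg (filter_subset _ _) ?_)
        · intro N hN
          rw [mem_filter] at hN
          rw [mul_one_div]
          exact div_le_div_of_nonneg_right hN.2.2.le (Nat.cast_nonneg _)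
        · intro N _ _
          exact div_nonneg (abs_nonneg _) (Nat.cast_nonneg _)
      have h3 : η * ∑ N ∈ (Icc 1 X).filter (fun N => p.1 ≠ p.2 ∧ η < PC a p.1 p.2 N),
          1 / (N : ℝ) ≤ η * (η' / D * Real.log X) := by
        refine h2.trans (h1.trans (le_of_eq ?_))
        ring
      exact le_of_mul_le_mul_left h3 hη
    · have : (Icc 1 X).filter (fun N => p.1 ≠ p.2 ∧
          η < PC (fun x => if c j x = t then 1 else 0) p.1 p.2 N) = ∅ := by
        rw [filter_eq_empty_iff]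
        intro N _ h
        exact hne h.1
      rw [this, sum_empty]
      positivity
  have hfin : ∑ p ∈ S ×ˢ S, ∑ _j : Fin k, ∑ _t : Fin r, η' / D * Real.log X ≤
      η' * Real.log X := by
    simp only [sum_const, card_univ, Fintype.card_fin, nsmul_eq_mul]
    have h1 : ((S ×ˢ S).card : ℝ) * (k * (r * (η' / D * Real.log X))) =
        (((S ×ˢ S).card * (k * r)) / D) * (η' * Real.log X) := by ring
    rw [h1]
    have h2 : (((S ×ˢ S).card * (k * r) : ℝ)) / D ≤ 1 := by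
      rw [div_le_one hD0, hD]
      linarith
    exact mul_le_of_le_one_left (by positivity) h2
  refine le_trans ?_ hfin
  refine (sum_biUnion_le' _ _).trans (sum_le_sum fun p hp => ?_)
  refine (sum_biUnion_le' _ _).trans (sum_le_sum fun j _ => ?_)
  refine (sum_biUnion_le' _ _).trans (sum_le_sum fun t _ => ?_)
  exact key p hp j t

end Pool.Agent.J4.H34.SS
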