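import Pool.Agent.J4.H34.SS.Om

/-!
# Pairs of linear forms (helper34)
-/

set_option autoImplicit false

namespace Pool.Agent.J4.H34.SS

open Finset
open ArithmeticFunction (cardFactors)

/-- `exp(2 π i x)` -/
noncomputable def ex (x : ℝ) : ℂ := Complex.exp (2 * Real.pi * x * Complex.I)

/-- the mean of `B(Ω(n))` -/
noncomputable def mB (B : ℕ → ℂ) (N : ℕ) : ℂ := (∑ n ∈ Icc 1 N, B (cardFactors n)) / N

/-- the theorem for pairs of shifts with linear phases -/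
def PhaseProp : Prop := ∀ a c : ℕ, a ≠ c → ∀ ε : ℝ, 0 < ε → ∃ X₀ : ℕ, ∀ X : ℕ, X₀ ≤ X →
  ∀ A B : ℕ → ℂ, (∀ l, ‖A l‖ ≤ 1) → (∀ l, ‖B l‖ ≤ 1) → ∀ (α : ℝ) (y : ℕ → ℕ), (∀ N, y N ≤ N) →
    ∑ N ∈ Icc 1 X, ‖∑ n ∈ Icc 1 (y N), A (cardFactors (n + c)) * ex (α * n) *
      (B (cardFactors (n + a)) - mB B N)‖ / (N : ℝ) ^ 2 ≤ ε * Real.log X

lemma ex_sum {Q : ℕ} (hQ : 1 ≤ Q) (n : ℕ) :
    ∑ j ∈ range Q, ex ((j : ℝ) / Q * n) = if Q ∣ n then (Q : ℂ) else 0 := by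
  have hQ0 : (Q : ℂ) ≠ 0 := by
    exact_mod_cast (by omega : Q ≠ 0)
  set ζ : ℂ := Complex.exp (2 * Real.pi * Complex.I / Q) with hζ
  have hprim : IsPrimitiveRoot ζ Q := Complex.isPrimitiveRoot_exp Q (by omega)
  have h1 : ∀ j : ℕ, ex ((j : ℝ) / Q * n) = (ζ ^ n) ^ j := by
    intro j
    unfold ex
    rw [← pow_mul, hζ, ← Complex.exp_nat_mul]
    congr 1
    push_cast
    field_simp
  simp only [h1]
  split_ifs with hd
  · have : ζ ^ n = 1 := (hprim.pow_eq_one_iff_dvd n).2 hd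
    rw [this]
    simp
  · have h2 : ζ ^ n ≠ 1 := fun h => hd ((hprim.pow_eq_one_iff_dvd n).1 h)
    rw [geom_sum_eq h2, ← pow_mul, mul_comm, pow_mul, hprim.pow_eq_one, one_pow, sub_self,
      zero_div]

/-- pairs of shifts along a progression -/
lemma prog (PH : PhaseProp) (a c Q : ℕ) (hac : a ≠ c) (hQ : 1 ≤ Q) (ε : ℝ) (hε : 0 < ε) :
    ∃ X₀ : ℕ, ∀ X : ℕ, X₀ ≤ X → ∀ A B : ℕ → ℂ, (∀ l, ‖A l‖ ≤ 1) → (∀ l, ‖B l‖ ≤ 1) →
      ∀ (y : ℕ → ℕ), (∀ N, y N ≤ N) →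
        ∑ N ∈ Icc 1 X, ‖∑ n ∈ (Icc 1 (y N)).filter (fun n => Q ∣ n), A (cardFactors (n + c)) *
          (B (cardFactors (n + a)) - mB B N)‖ / (N : ℝ) ^ 2 ≤ ε * Real.log X := by
  obtain ⟨X₀, h⟩ := PH a c hac ε hε
  refine ⟨X₀, fun X hX A B hA hB y hy => ?_⟩
  have hQ0 : (0 : ℝ) < Q := by exact_mod_cast hQ
  have hQc : (Q : ℂ) ≠ 0 := by exact_mod_cast (by omega : Q ≠ 0)
  have h1 : ∀ N, ∑ n ∈ (Icc 1 (y N)).filter (fun n => Q ∣ n), A (cardFactors (n + c)) *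
      (B (cardFactors (n + a)) - mB B N) = (1 / (Q : ℂ)) * ∑ j ∈ range Q, ∑ n ∈ Icc 1 (y N),
        A (cardFactors (n + c)) * ex ((j : ℝ) / Q * n) * (B (cardFactors (n + a)) - mB B N) := by
    intro N
    rw [sum_comm, sum_filter, mul_sum]
    refine sum_congr rfl fun n _ => ?_
    have h2 : ∑ j ∈ range Q, A (cardFactors (n + c)) * ex ((j : ℝ) / Q * n) *
        (B (cardFactors (n + a)) - mB B N) = A (cardFactors (n + c)) *
        (B (cardFactors (n + a)) - mB B N) * ∑ j ∈ range Q, ex ((j : ℝ) / Q * n) := by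
      rw [mul_sum]
      exact sum_congr rfl fun j _ => by ring
    rw [h2, ex_sum hQ]
    split_ifs
    · field_simp
    · simp
  have h3 : ∀ N ∈ Icc 1 X, ‖∑ n ∈ (Icc 1 (y N)).filter (fun n => Q ∣ n),
      A (cardFactors (n + c)) * (B (cardFactors (n + a)) - mB B N)‖ / (N : ℝ) ^ 2 ≤
      (1 / (Q : ℝ)) * ∑ j ∈ range Q, ‖∑ n ∈ Icc 1 (y N),
        A (cardFactors (n + c)) * ex ((j : ℝ) / Q * n) * (B (cardFactors (n + a)) - mB B N)‖ /
          (N : ℝ) ^ 2 := by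
    intro N _
    rw [h1, norm_mul, ← sum_div, ← mul_div_assoc]
    apply div_le_div_of_nonneg_right _ (by positivity)
    rw [norm_div, norm_one, Complex.norm_natCast]
    exact mul_le_mul_of_nonneg_left (norm_sum_le _ _) (by positivity)
  refine (sum_le_sum h3).trans ?_
  rw [← mul_sum, sum_comm]
  have h4 : ∑ j ∈ range Q, ∑ N ∈ Icc 1 X, ‖∑ n ∈ Icc 1 (y N),
        A (cardFactors (n + c)) * ex ((j : ℝ) / Q * n) * (B (cardFactors (n + a)) - mB B N)‖ /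
          (N : ℝ) ^ 2 ≤ ∑ j ∈ range Q, ε * Real.log X :=
    sum_le_sum fun j _ => h X hX A B hA hB ((j : ℝ) / Q) y hy
  rw [sum_const, card_range, nsmul_eq_mul] at h4
  calc _ ≤ (1 / (Q : ℝ)) * (Q * (ε * Real.log X)) := mul_le_mul_of_nonneg_left h4 (by positivity)
    _ = _ := by field_simp

lemma sum_prog {Q : ℕ} (hQ : 1 ≤ Q) (N : ℕ) (w : ℕ → ℂ) :
    ∑ m ∈ (Icc 1 (Q * N)).filter (fun m => Q ∣ m), w m = ∑ n ∈ Icc 1 N, w (Q * n) := by
  classical
  have h : (Icc 1 (Q * N)).filter (fun m => Q ∣ m) = (Icc 1 N).image (fun n => Q * n) := by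
    ext m
    simp only [mem_filter, mem_Icc, mem_image]
    constructor
    · rintro ⟨⟨h1, h2⟩, n, rfl⟩
      refine ⟨n, ⟨?_, ?_⟩, rfl⟩
      · rcases Nat.eq_zero_or_pos n with h0 | h0
        · rw [h0, mul_zero] at h1
          omega
        · exact h0
      · exact Nat.le_of_mul_le_mul_left h2 hQ
    · rintro ⟨n, ⟨h1, h2⟩, rfl⟩
      exact ⟨⟨Nat.mul_pos hQ h1, Nat.mul_le_mul_left _ h2⟩, dvd_mul_right _ _⟩
  rw [h, sum_image]
  intro x _ y _ hxy
  exact Nat.eq_of_mul_eq_mul_left hQ hxy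

lemma sum_dil {Q : ℕ} (hQ : 1 ≤ Q) (X : ℕ) (g : ℕ → ℝ) (hg : ∀ n, 0 ≤ g n) :
    ∑ N ∈ Icc 1 X, g (Q * N) ≤ ∑ L ∈ Icc 1 (Q * X), g L := by
  classical
  have h : ∑ N ∈ Icc 1 X, g (Q * N) = ∑ L ∈ (Icc 1 X).image (fun n => Q * n), g L := by
    rw [sum_image]
    intro x _ y _ hxy
    exact Nat.eq_of_mul_eq_mul_left hQ hxy
  rw [h]
  refine sum_le_sum_of_subset_of_nonneg ?_ fun n _ _ => hg n
  intro m hm
  obtain ⟨n, hn, rfl⟩ := mem_image.1 hm
  rw [mem_Icc] at hn ⊢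
  exact ⟨Nat.mul_pos hQ hn.1, Nat.mul_le_mul_left _ hn.2⟩

/-- pairs of forms -/
theorem pairForms (PH : PhaseProp) : PairProp := by
  rintro ⟨q, h⟩ ⟨q', h'⟩ hq hq' hne ε hε
  simp only at hq hq' hne
  set Q := q * q' with hQ
  have hQ1 : 1 ≤ Q := Nat.mul_pos hq hq'
  have hQR : (0 : ℝ) < Q := by exact_mod_cast hQ1
  have hne' : q * h' ≠ q' * h := hne
  set ε' : ℝ := ε / (8 * Q ^ 2) with hε'
  have hε0 : 0 < ε' := by positivity
  obtain ⟨X₁, H₁⟩ := prog PH (q * h') (q' * h) Q hne' hQ1 ε' hε0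
  obtain ⟨X₂, H₂⟩ := prog PH 0 1 q (by omega) hq ε' hε0
  refine ⟨X₁ + X₂ + Q, fun X hX a ha => ?_⟩
  have hXQ : X ≤ Q * X := Nat.le_mul_of_pos_left X hQ1
  have hX1 : 1 ≤ X := by omega
  set A : ℕ → ℂ := fun t => ((a (t - cardFactors q') : ℝ) : ℂ) with hA
  set B : ℕ → ℂ := fun t => ((a (t - cardFactors q) : ℝ) : ℂ) with hB
  have hA1 : ∀ t, ‖A t‖ ≤ 1 := fun t => by
    rw [hA]; simp only; rw [Complex.norm_real]; exact ha _
  have hB1 : ∀ t, ‖B t‖ ≤ 1 := fun t => by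
    rw [hB]; simp only; rw [Complex.norm_real]; exact ha _
  set g₁ : ℕ → ℝ := fun L => ‖∑ n ∈ (Icc 1 L).filter (fun n => Q ∣ n),
    A (cardFactors (n + q' * h)) * (B (cardFactors (n + q * h')) - mB B L)‖ / (L : ℝ) ^ 2 with hg₁
  set g₂ : ℕ → ℝ := fun L => ‖∑ n ∈ (Icc 1 L).filter (fun n => Q ∣ n),
    1 * (B (cardFactors (n + q * h')) - mB B L)‖ / (L : ℝ) ^ 2 with hg₂
  set g₃ : ℕ → ℝ := fun L => ‖∑ n ∈ (Icc 1 (L / q')).filter (fun n => q ∣ n),
    1 * (B (cardFactors (n + 0)) - mB B L)‖ / (L : ℝ) ^ 2 with hg₃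
  have k1 := H₁ (Q * X) (by omega) A B hA1 hB1 (fun L => L) fun _ => le_rfl
  have k2 := H₁ (Q * X) (by omega) (fun _ => 1) B (fun _ => by simp) hB1 (fun L => L)
    fun _ => le_rfl
  have k3 := H₂ (Q * X) (by omega) (fun _ => 1) B (fun _ => by simp) hB1 (fun L => L / q')
    fun L => Nat.div_le_self _ _
  -- the pointwise bound
  have key : ∀ N ∈ Icc 1 X, PC a (q, h) (q', h') N / (N : ℝ) ≤
      (Q : ℝ) ^ 2 * (g₁ (Q * N) + g₂ (Q * N) + 2 * g₃ (Q * N)) := by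
    intro N hN
    rw [mem_Icc] at hN
    have hN0 : (0 : ℝ) < N := by exact_mod_cast hN.1
    have hNc : (N : ℂ) ≠ 0 := by exact_mod_cast (by omega : N ≠ 0)
    set M : ℂ := mB B (Q * N) with hM
    set m : ℝ := av N fun n => a (cardFactors n) with hm
    have hm1 : |m| ≤ 1 := av_abs_le N zero_le_one fun n => ha _
    set u : ℕ → ℝ := fun n => a (cardFactors (q * n + h)) with hu
    set v : ℕ → ℝ := fun n => a (cardFactors (q' * n + h')) with hv
    have e1 : ∑ n ∈ (Icc 1 (Q * N)).filter (fun n => Q ∣ n),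
        A (cardFactors (n + q' * h)) * (B (cardFactors (n + q * h')) - M) =
        ∑ n ∈ Icc 1 N, ((u n : ℝ) : ℂ) * (((v n : ℝ) : ℂ) - M) := by
      rw [sum_prog hQ1]
      refine sum_congr rfl fun n hn => ?_
      rw [mem_Icc] at hn
      have i1 : Q * n + q' * h = q' * (q * n + h) := by rw [hQ]; ring
      have i2 : Q * n + q * h' = q * (q' * n + h') := by rw [hQ]; ring
      have p1 : 0 < q * n + h := by
        have := Nat.mul_pos hq hn.1
        omega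
      have p2 : 0 < q' * n + h' := by
        have := Nat.mul_pos hq' hn.1
        omega
      rw [i1, i2, ArithmeticFunction.cardFactors_mul (by omega) (by omega),
        ArithmeticFunction.cardFactors_mul (by omega) (by omega), hA, hB]
      simp only [Nat.add_sub_cancel_left]
      rfl
    have e2 : ∑ n ∈ (Icc 1 (Q * N)).filter (fun n => Q ∣ n),
        1 * (B (cardFactors (n + q * h')) - M) = ∑ n ∈ Icc 1 N, (((v n : ℝ) : ℂ) - M) := by
      rw [sum_prog hQ1]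
      refine sum_congr rfl fun n hn => ?_
      rw [mem_Icc] at hn
      have i2 : Q * n + q * h' = q * (q' * n + h') := by rw [hQ]; ring
      have p2 : 0 < q' * n + h' := by
        have := Nat.mul_pos hq' hn.1
        omega
      rw [i2, ArithmeticFunction.cardFactors_mul (by omega) (by omega), hB, one_mul]
      simp only [Nat.add_sub_cancel_left]
      rfl
    have e3 : ∑ n ∈ (Icc 1 (Q * N / q')).filter (fun n => q ∣ n),
        1 * (B (cardFactors (n + 0)) - M) = N * ((m : ℂ) - M) := by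
      have i0 : Q * N / q' = q * N := by
        rw [hQ, mul_assoc, mul_comm q' N, ← mul_assoc, Nat.mul_div_cancel _ hq']
      rw [i0, sum_prog hq]
      have i3 : ∀ n ∈ Icc 1 N, 1 * (B (cardFactors (q * n + 0)) - M) =
          ((a (cardFactors n) : ℝ) : ℂ) - M := by
        intro n hn
        rw [mem_Icc] at hn
        rw [add_zero, ArithmeticFunction.cardFactors_mul (by omega) (by omega), hB, one_mul]
        simp only [Nat.add_sub_cancel_left]
      rw [sum_congr rfl i3, sum_sub_distrib, sum_const, Nat.card_Icc, Nat.add_sub_cancel,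
        nsmul_eq_mul, mul_sub]
      congr 1
      rw [hm]
      unfold av
      push_cast
      field_simp
    have e4 : ((∑ n ∈ Icc 1 N, (u n - m) * (v n - m) : ℝ) : ℂ) =
        (∑ n ∈ Icc 1 N, ((u n : ℝ) : ℂ) * (((v n : ℝ) : ℂ) - M)) -
        (m : ℂ) * (∑ n ∈ Icc 1 N, (((v n : ℝ) : ℂ) - M)) -
        ((m : ℂ) - M) * ∑ n ∈ Icc 1 N, (((u n : ℝ) : ℂ) - (m : ℂ)) := by
      rw [mul_sum, mul_sum, ← sum_sub_distrib, ← sum_sub_distrib]
      push_cast
      refine sum_congr rfl fun n _ => ?_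
      ring
    have b1 : ‖∑ n ∈ Icc 1 N, (((u n : ℝ) : ℂ) - (m : ℂ))‖ ≤ 2 * N := by
      refine (norm_sum_le _ _).trans ?_
      calc ∑ n ∈ Icc 1 N, ‖((u n : ℝ) : ℂ) - (m : ℂ)‖ ≤ ∑ n ∈ Icc 1 N, (2 : ℝ) := by
            refine sum_le_sum fun n _ => ?_
            rw [← Complex.ofReal_sub, Complex.norm_real]
            refine (abs_sub _ _).trans ?_
            have : |u n| ≤ 1 := ha _
            linarith
        _ = 2 * N := by simp [mul_comm]
    have b2 : |∑ n ∈ Icc 1 N, (u n - m) * (v n - m)| ≤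
        ‖∑ n ∈ (Icc 1 (Q * N)).filter (fun n => Q ∣ n),
          A (cardFactors (n + q' * h)) * (B (cardFactors (n + q * h')) - M)‖ +
        ‖∑ n ∈ (Icc 1 (Q * N)).filter (fun n => Q ∣ n),
          1 * (B (cardFactors (n + q * h')) - M)‖ +
        2 * ‖∑ n ∈ (Icc 1 (Q * N / q')).filter (fun n => q ∣ n),
          1 * (B (cardFactors (n + 0)) - M)‖ := by
      rw [← Real.norm_eq_abs, ← Complex.norm_real, e4, e1, e2, e3]
      refine (norm_sub_le _ _).trans (add_le_add ((norm_sub_le _ _).trans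
        (add_le_add le_rfl ?_)) ?_)
      · rw [norm_mul, Complex.norm_real]
        exact mul_le_of_le_one_left (norm_nonneg _) hm1
      · rw [norm_mul, norm_mul, Complex.norm_natCast]
        calc ‖(m : ℂ) - M‖ * ‖∑ n ∈ Icc 1 N, (((u n : ℝ) : ℂ) - (m : ℂ))‖ ≤
              ‖(m : ℂ) - M‖ * (2 * N) := mul_le_mul_of_nonneg_left b1 (norm_nonneg _)
          _ = _ := by ring
    have e5 : PC a (q, h) (q', h') N = |∑ n ∈ Icc 1 N, (u n - m) * (v n - m)| / N := by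
      unfold PC
      unfold av
      rw [abs_div, abs_of_pos hN0]
      rfl
    rw [e5, hg₁, hg₂, hg₃]
    simp only
    rw [div_div, ← sq, ← mul_div_assoc 2, ← add_div, ← add_div, ← mul_div_assoc]
    have hQN : (0 : ℝ) < ((Q * N : ℕ) : ℝ) := by exact_mod_cast Nat.mul_pos hQ1 hN.1
    rw [div_le_div_iff₀ (by positivity) (pow_pos hQN 2)]
    push_cast
    have := mul_le_mul_of_nonneg_right b2 (by positivity : (0 : ℝ) ≤ (Q : ℝ) ^ 2 * N ^ 2)
    calc |∑ n ∈ Icc 1 N, (u n - m) * (v n - m)| * ((Q : ℝ) * N) ^ 2 =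
        |∑ n ∈ Icc 1 N, (u n - m) * (v n - m)| * ((Q : ℝ) ^ 2 * N ^ 2) := by ring
      _ ≤ _ := this
      _ = _ := by ring
  refine (sum_le_sum key).trans ?_
  rw [← mul_sum, sum_add_distrib, sum_add_distrib, ← mul_sum]
  have n1 := sum_dil hQ1 X g₁ fun _ => by rw [hg₁]; positivity
  have n2 := sum_dil hQ1 X g₂ fun _ => by rw [hg₂]; positivity
  have n3 := sum_dil hQ1 X g₃ fun _ => by rw [hg₃]; positivity
  have l1 : Real.log ((Q * X : ℕ) : ℝ) ≤ 2 * Real.log X := by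
    have hX0 : (0 : ℝ) < X := by exact_mod_cast hX1
    push_cast
    rw [Real.log_mul hQR.ne' hX0.ne', two_mul]
    apply add_le_add _ le_rfl
    apply Real.log_le_log hQR
    exact_mod_cast (by omega : Q ≤ X)
  have t1 : ∑ N ∈ Icc 1 X, g₁ (Q * N) ≤ ε' * (2 * Real.log X) :=
    n1.trans (k1.trans (mul_le_mul_of_nonneg_left l1 hε0.le))
  have t2 : ∑ N ∈ Icc 1 X, g₂ (Q * N) ≤ ε' * (2 * Real.log X) :=
    n2.trans (k2.trans (mul_le_mul_of_nonneg_left l1 hε0.le))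
  have t3 : ∑ N ∈ Icc 1 X, g₃ (Q * N) ≤ ε' * (2 * Real.log X) :=
    n3.trans (k3.trans (mul_le_mul_of_nonneg_left l1 hε0.le))
  calc (Q : ℝ) ^ 2 * (∑ N ∈ Icc 1 X, g₁ (Q * N) + ∑ N ∈ Icc 1 X, g₂ (Q * N) +
        2 * ∑ N ∈ Icc 1 X, g₃ (Q * N)) ≤ (Q : ℝ) ^ 2 * (4 * (ε' * (2 * Real.log X))) := by
        apply mul_le_mul_of_nonneg_left _ (by positivity)
        linarith
    _ = ε * Real.log X := by
        rw [hε']
        field_simp
        ring

end Pool.Agent.J4.H34.SS
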